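import Pool.Agent.N970.Sgn.Prop
import Pool.Agent.N970.P17G.Odd
import Pool.Agent.N871.P21G.GenC

/-!
# The frozen signs `sgp` and `sgnE` of a pair of vectors (generic ternary frame, `n = A l`)
-/

set_option autoImplicit false
set_option linter.unusedSectionVars false

namespace Pool.Agent.N970.Sgn

open Finset
open Pool.Agent.N969.P15 (V3 Ev c2)
open Pool.Agent.N969.P17G (sgp sg2 sgnE t2)
open Pool.Agent.N844.P17G (Iso sig rel)
open Pool.Agent.N871.G21 (FF FF_of Fn_mul Fn_two nv_or main_m main_2 eT_odd eS_eq Fs dl dl_sq hl)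
open Pool.Agent.N833.P21 (L2 M2 Q')
open Pool.Agent.N295.P15 (Ff)
open Pool.Agent.N295.P15.E (eT eS kq eT_sq pf_prime pf_dvd)
open Pool.Agent.N877.P21G (Fn)
open Pool.Agent.N969.RQ (Fd)

section

variable {ip : V3 → V3 → ℤ} {K : ℤ} (F : Frm ip K) {p : ℕ} [hp : Fact p.Prime] (h2 : p ≠ 2)
  (hK : ¬ (p : ℤ) ∣ K)

include F h2 hK

/-- the frozen sign of two vectors is the relative sign -/
theorem sgp_sig {n k : ℕ} (hn : p ∣ n)
    (hn2 : ¬ p ^ 2 ∣ n) (hk : ¬ p ∣ k) {v w : V3} (hv : ip v v = n) (hw : ip w w = (k : ℤ) ^ 2 * n)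
    (iv : Iso ip p v) (iw : Iso ip p w)
    {T : ℤ} (hT : 2 * T = k * n + ip v w) : sgp k n p T = sig ip p v w := by
  have hk0 : ((k : ℤ) : ZMod p) ≠ 0 := by
    rw [Ne, ← dvd_cast]
    intro h
    exact hk (by exact_mod_cast h)
  have e1 : ∀ u x : V3, ip u ((-1 : ℤ) • x) = - ip u x := by
    intro u x
    have e : (-1 : ℤ) • x = (-1 : ℤ) • x + (0 : ℤ) • x := by rw [zero_smul, add_zero]
    rw [e, F.lin]
    ring
  have hm1 : ((-1 : ℤ) : ZMod p) ≠ 0 := by simp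
  have iw' : Iso ip p ((-1 : ℤ) • w) := sim_iso F F (sim_smul F (-1)) h2 hK hm1 iw
  have h1 := sig_rel F h2 hK (c := k) hn hn2 hk0 hv (w := (-1 : ℤ) • w) (S := k * n - T) (T := T)
    (by rw [e1, F.symm, e1, F.symm, neg_neg]; exact hw) (by ring) (by rw [e1]; linarith)
  rw [Pool.Agent.N970.P17G.sgp_rel hn hn2, ← h1, ← sig_mul F h2 hK iv iw iw',
    sig_smul F h2 hK hm1 iw, ← jac_eq,
    mul_comm, mul_assoc, ← jacobiSym.mul_left]
  norm_num

/-- the sign of `-v` -/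
theorem psi_neg {v : V3} (hv : Iso ip p v) : psi ip p ((-1 : ℤ) • v) = jacobiSym (-1) p *
    psi ip p v := psi_smul F h2 hK (by simp) hv

end

/-! ### the product of the signs at the primes of `A` for `T = 0`, `T = n` -/

theorem sgnE_zero {A m : ℕ} (hA : A = 1 ∨ Fd A) (hm : Fn m) (hcop : Nat.Coprime A m) :
    sgnE 1 A (A * m) 0 = 1 := by
  obtain ⟨hF, hk⟩ := Fn_mul hA hm hcop
  rw [← hk]
  unfold sgnE
  refine prod_congr rfl fun p hp => ?_
  have hpp := Nat.prime_of_mem_primeFactors hp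
  unfold kq
  split_ifs with h2
  · unfold sg2
    rw [if_pos rfl]
    simp
  · unfold sgp
    rw [if_pos (dvd_zero _), Int.zero_ediv, if_pos (dvd_zero _)]
    have : (-((1 : ℕ) : ℤ)) = -1 := by norm_num
    rw [this, jacobiSym.at_neg_one (hpp.odd_of_ne_two h2)]

theorem sgnE_top {A m : ℕ} (hA : A = 1 ∨ Fd A) (hm : Fn m) (hcop : Nat.Coprime A m) :
    sgnE 1 A (A * m) ((A * m : ℕ) : ℤ) = 1 := by
  obtain ⟨hF, hk⟩ := Fn_mul hA hm hcop
  have hFF := FF_of hF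
  unfold sgnE
  refine prod_eq_one fun p hp => ?_
  have hpp := Nat.prime_of_mem_primeFactors hp
  have hpA := Nat.dvd_of_mem_primeFactors hp
  have hpn : p ∣ A * m := hpA.mul_right m
  have hn0 : A * m ≠ 0 := hFF.n0
  split_ifs with h2
  · subst h2
    have hE := Fn_two hF hpn
    have hz : ((A * m : ℕ) : ℤ) ≠ 0 := by exact_mod_cast hn0
    rw [Pool.Agent.N970.P17G.sg2_ne hz]
    have h1 := Pool.Agent.N970.P17G.hs_norm hE (x := 0) (y := 1) (by simpa using hz)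
    simpa using h1
  · have hp' : p ∈ (A * m).primeFactors.erase 2 :=
      mem_erase.2 ⟨h2, Nat.mem_primeFactors.2 ⟨hpp, hpn, hn0⟩⟩
    have hfac := hFF.fac1 p hp'
    have hnp : ¬ p ∣ A * m / p := by
      have := Nat.not_dvd_ordCompl hpp hn0
      rwa [hfac, pow_one] at this
    have : Fact p.Prime := ⟨hpp⟩
    unfold sgp
    rw [if_pos (by exact_mod_cast hpn)]
    have e : ((A * m : ℕ) : ℤ) / p = ((A * m / p : ℕ) : ℤ) := by push_cast; rfl
    rw [e, if_neg (by exact_mod_cast hnp)]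
    exact Pool.Agent.N970.P17G.jac_sq (by exact_mod_cast hnp)

/-- the signs at the primes of `A` and the sign at the prime `l`, `n = A l`, `0 < T < n` -/
theorem sgnE_sgp {A l : ℕ} (hA : A = 1 ∨ Fd A) (hl : l.Prime) (hl4 : l % 4 = 3)
    (hcop : Nat.Coprime A l) {S T : ℕ} (hS : S ≠ 0) (hT : T ≠ 0) (hST : S + T = A * l)
    (h3 : 3 ∣ A → ¬ 3 ∣ T) (h7 : 7 ∣ A → ¬ 7 ∣ T)
    (hne : L2 (A * l) S T * Fs (A * l) S T ≠ 0) (hl3 : l ≠ 3) (hl7 : l ≠ 7) :
    sgnE 1 A (A * l) T = dl (A * l) T * sgp 1 (A * l) l T := by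
  have hFl : Fn l := Or.inl ⟨hl.squarefree, hl4⟩
  have h2 : l ≠ 2 := by rintro rfl; omega
  obtain ⟨hF, hk⟩ := Fn_mul hA hFl hcop
  have hFF := FF_of hF
  have hST1 : S + T = 1 * (A * l) := by rw [one_mul]; exact hST
  have e1 := main_m hA hFl hcop (c := 1) (Or.inl rfl) hS hT hST1 h3 h7
  have e2 := mul_right_cancel₀ hne e1
  rw [hl.primeFactors, prod_singleton] at e2
  have hF' : ∀ q ∈ Q' (A * l) S T, Ff (A * l) S T q ≠ 0 := by
    rcases nv_or (A * l) S T with ⟨h, _⟩ | ⟨h, _⟩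
    · exact h
    · exact absurd h hne
  have hlm : l ∈ (A * l).primeFactors.erase 2 :=
    mem_erase.2 ⟨h2, Nat.mem_primeFactors.2 ⟨hl, dvd_mul_left _ _, hFF.n0⟩⟩
  have e3 := eT_odd hFF (T := T) (k := 1) hT (Or.inl rfl) (by omega) hlm (fun _ _ => by
    have e4 : 1 * (A * l) - T = S := by omega
    rw [e4, eS_eq hFF hS hT hST1 hF' hlm hl3 hl7, eT_sq hl hT]
    norm_num)
  have e5 : kq (A * l) l = -1 := by
    unfold kq
    rw [if_neg h2, ZMod.χ₄_nat_three_mod_four hl4]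
  rw [e3, e5] at e2
  have e6 := dl_sq (A * l) T
  linear_combination (-(sgnE 1 A (A * l) T)) * e6 + dl (A * l) T * e2

end Pool.Agent.N970.Sgn
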