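import Pool.Agent.N970.Sgn.Psi
import Pool.Agent.N969.RQ.Defs3

/-!
# Vectors isotropic modulo `l`: proportional vectors, roots, the sign `sj` (generic ternary frame)
-/

set_option autoImplicit false
set_option linter.unusedSectionVars false

namespace Pool.Agent.N970.Sgn

open Finset
open Pool.Agent.N969.P15 (V3)
open Pool.Agent.N969.RQ (Un sj)
open Pool.Agent.N844.P17G (Iso sig)

section

variable {ip : V3 → V3 → ℤ} {K : ℤ} (F : Frm ip K) {l : ℕ} [hl : Fact l.Prime] (h2 : l ≠ 2)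
  (hK : ¬ (l : ℤ) ∣ K)

/-- isotropic modulo `l` -/
theorem iso_mul (F : Frm ip K) {n : ℕ} (hn : ¬ l ∣ n) {v : V3} (hv : ip v v = (n * l : ℕ)) :
    Iso ip l v := by
  refine iso_of F (p := l) hv (by push_cast; exact dvd_mul_left _ _) ?_
  intro h
  have h' : l ^ 2 ∣ n * l := by exact_mod_cast h
  rw [pow_two] at h'
  exact hn (Nat.dvd_of_mul_dvd_mul_right hl.out.pos h')

include F h2 hK

/-- proportional vectors -/
theorem prop_ex {v w : V3} (hv : Iso ip l v) (hw : Iso ip l w) (h : (l : ℤ) ∣ ip v w) :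
    ∃ c : ℤ, ¬ (l : ℤ) ∣ c ∧ ∀ i, (l : ℤ) ∣ v i - c * w i := by
  have pr := par F h2 hK hv.1 hw.1 h
  obtain ⟨j, hj⟩ := iso_ne hw
  obtain ⟨c, hc⟩ : ∃ c : ℤ, (c : ZMod l) = (v j : ZMod l) * (w j : ZMod l)⁻¹ :=
    ⟨((v j : ZMod l) * (w j : ZMod l)⁻¹).val, by simp⟩
  have hall : ∀ i, (v i : ZMod l) = c * w i := by
    intro i
    rw [hc]
    field_simp
    exact pr i j
  refine ⟨c, ?_, fun i => ?_⟩
  · intro h0
    rw [dvd_cast] at h0
    obtain ⟨i, hi⟩ := iso_ne hv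
    apply hi
    rw [hall i, h0, zero_mul]
  · rw [dvd_cast]
    push_cast
    rw [hall i, sub_self]

/-- the sign of proportional vectors -/
theorem sig_prp {v w : V3} (hv : Iso ip l v) (hw : Iso ip l w) (h : (l : ℤ) ∣ ip v w) {c : ℤ}
    (hc : ∀ i, (l : ℤ) ∣ v i - c * w i) : sig ip l v w = jacobiSym c l := by
  obtain ⟨i, hi⟩ := iso_ne hv
  obtain ⟨h1, h3⟩ := sig_par F h2 hK hv hw ((dvd_cast _).1 h) hi
  have e : (v i : ZMod l) = c * w i := by
    have := (dvd_cast _).1 (hc i)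
    push_cast at this
    linear_combination this
  have hc0 : (c : ZMod l) ≠ 0 := by
    intro h0
    rw [h0, zero_mul] at e
    exact hi e
  rw [h3, jac_eq]
  refine qc_eq (s := (c : ZMod l) * w i) ?_ (mul_ne_zero hi h1) hc0
  rw [e]
  ring

omit h2 hK in
/-- the coefficient is a root -/
theorem root_of {d e : ℕ} {t c : ℤ} {v w : V3} (hv : ip v v = (d * l : ℕ))
    (hw : ip w w = (e * l : ℕ)) (hvw : ip v w = l * t) (hc : ∀ i, (l : ℤ) ∣ v i - c * w i) :
    (l : ℤ) ∣ e * c ^ 2 - 2 * t * c + d := by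
  have hl0 : (l : ℤ) ≠ 0 := by exact_mod_cast hl.out.ne_zero
  have h1 : (l : ℤ) ^ 2 ∣ ip ((1 : ℤ) • v + (-c) • w) ((1 : ℤ) • v + (-c) • w) := by
    apply sq_dvd F
    intro i
    simp only [Pi.add_apply, Pi.smul_apply, smul_eq_mul]
    have : 1 * v i + -c * w i = v i - c * w i := by ring
    rw [this]
    exact hc i
  have h3 : ip ((1 : ℤ) • v + (-c) • w) ((1 : ℤ) • v + (-c) • w) =
      l * (e * c ^ 2 - 2 * t * c + d) := by
    rw [F.lin, F.symm _ v, F.symm _ w, F.lin, F.lin, F.symm w v, hv, hw, hvw]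
    push_cast
    ring
  rw [h3, pow_two] at h1
  exact (mul_dvd_mul_iff_left hl0).1 h1

omit hl F h2 hK in
theorem jac_of_mod {a b : ℤ} (h : (l : ℤ) ∣ a - b) : jacobiSym a l = jacobiSym b l := by
  apply jacobiSym.mod_left'
  exact (Int.modEq_iff_dvd.2 (by
    have := dvd_neg.2 h
    rwa [neg_sub] at this))

omit F h2 hK in
/-- two roots of the same sign -/
theorem root_mul {d e : ℕ} {t c1 c2 : ℤ} (hle : ¬ l ∣ e)
    (r1 : (l : ℤ) ∣ e * c1 ^ 2 - 2 * t * c1 + d) (r2 : (l : ℤ) ∣ e * c2 ^ 2 - 2 * t * c2 + d)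
    (hD : jacobiSym ((d * e : ℕ) : ℤ) l = 1) (h1 : ¬ (l : ℤ) ∣ c1) (h2 : ¬ (l : ℤ) ∣ c2) :
    jacobiSym c1 l = jacobiSym c2 l := by
  have hlp : Prime (l : ℤ) := Nat.prime_iff_prime_int.1 hl.out
  have hleZ : ¬ (l : ℤ) ∣ e := fun h => hle (by exact_mod_cast h)
  have pm : ∀ c : ℤ, ¬ (l : ℤ) ∣ c → jacobiSym c l = 1 ∨ jacobiSym c l = -1 := by
    intro c hc
    rw [jac_eq]
    rw [dvd_cast] at hc
    exact quadraticChar_dichotomy hc
  have h3 : (l : ℤ) ∣ (c1 - c2) * (e * (c1 + c2) - 2 * t) := by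
    have e1 : (c1 - c2) * (e * (c1 + c2) - 2 * t) =
        (e * c1 ^ 2 - 2 * t * c1 + d) - (e * c2 ^ 2 - 2 * t * c2 + d) := by ring
    rw [e1]
    exact dvd_sub r1 r2
  rcases hlp.dvd_or_dvd h3 with h | hs
  · exact jac_of_mod h
  have hpr : (l : ℤ) ∣ (e : ℤ) ^ 2 * (c1 * c2) - (d * e : ℕ) := by
    have e1 : (e : ℤ) ^ 2 * (c1 * c2) - (d * e : ℕ) =
        (e : ℤ) * (c1 * (e * (c1 + c2) - 2 * t)) - e * (e * c1 ^ 2 - 2 * t * c1 + d) := by
      push_cast; ring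
    rw [e1]
    exact dvd_sub ((hs.mul_left _).mul_left _) (r1.mul_left _)
  have e1 := jac_of_mod hpr
  rw [hD, jacobiSym.mul_left, jacobiSym.mul_left, jacobiSym.sq_one', one_mul] at e1
  · rcases pm c1 h1 with a | a <;> rcases pm c2 h2 with b | b <;> rw [a, b] at e1 ⊢ <;>
      norm_num at e1
  · rw [Int.gcd_natCast_natCast]
    exact ((Nat.Prime.coprime_iff_not_dvd hl.out).2 hle).symm

/-- the product of the signs is `sj`, if `l ∤ t` or `(D / l) = 1` -/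
theorem psi_sj {D d : ℕ} {t : ℤ} {v w : V3} (hd : Un D d) (hlD : ¬ l ∣ D)
    (hv : ip v v = (d * l : ℕ)) (hw : ip w w = (D / d * l : ℕ)) (hvw : ip v w = t)
    (ht : ¬ (l : ℤ) ∣ t ∨ jacobiSym D l = 1) : psi ip l v * psi ip l w = sj D d l t := by
  have hld : ¬ l ∣ d := fun h => hlD (h.trans hd.1)
  have hle : ¬ l ∣ D / d := fun h => hlD (h.trans (Nat.div_dvd_of_dvd hd.1))
  have iv := iso_mul F hld hv
  have iw := iso_mul F hle hw
  rw [psi_mul F h2 hK iv iw]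
  unfold sj
  by_cases hlt : (l : ℤ) ∣ t
  · have hD : jacobiSym D l = 1 := ht.resolve_left (not_not.2 hlt)
    rw [if_pos hlt]
    have hl0 : (l : ℤ) ≠ 0 := by exact_mod_cast hl.out.ne_zero
    obtain ⟨s, rfl⟩ := hlt
    rw [Int.mul_ediv_cancel_left _ hl0]
    have hdv : (l : ℤ) ∣ ip v w := by rw [hvw]; exact dvd_mul_right _ _
    obtain ⟨c, hc, hp⟩ := prop_ex F h2 hK iv iw hdv
    have r := root_of F hv hw hvw hp
    rw [sig_prp F h2 hK iv iw hdv hp]
    have hDe : jacobiSym ((d * (D / d) : ℕ) : ℤ) l = 1 := by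
      rw [Nat.mul_div_cancel' hd.1]; exact hD
    have pm : jacobiSym c l = 1 ∨ jacobiSym c l = -1 := by
      rw [jac_eq]
      rw [dvd_cast] at hc
      exact quadraticChar_dichotomy hc
    split_ifs with h
    · obtain ⟨c', h3, h4⟩ := h
      have hc' : ¬ (l : ℤ) ∣ c' := by
        intro h5
        rw [dvd_cast] at h5
        rw [jac_eq, h5, quadraticChar_zero] at h4
        exact absurd h4 (by norm_num)
      rw [root_mul hle r h3 hDe hc hc', h4]
    · rcases pm with h3 | h3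
      · exact absurd ⟨c, r, h3⟩ h
      · exact h3
  · rw [if_neg hlt, sig_ne (by rw [hvw]; exact fun h => hlt ((dvd_cast _).2 h)), hvw, jac_eq]
    push_cast
    rfl

end

end Pool.Agent.N970.Sgn
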