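import Pool.Agent.N970.Sgn.Sig

/-!
# The sign functions on the vectors of a ternary lattice (generic form of `N844/P17G/Psi`)
-/

set_option autoImplicit false
set_option linter.all false

namespace Pool.Agent.N970.Sgn

open Finset
open Pool.Agent.N969.P15 (V3 ep2)
open Pool.Agent.N844.P17G (rel Iso sig)

open Classical in
/-- a base vector -/
noncomputable def bas (ip : V3 → V3 → ℤ) (p : ℕ) : V3 :=
  if h : ∃ e, Iso ip p e then h.choose else 0

/-- the sign of a vector -/
noncomputable def psi (ip : V3 → V3 → ℤ) (p : ℕ) (v : V3) : ℤ := sig ip p (bas ip p) v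

theorem sim_smul {ip : V3 → V3 → ℤ} {K : ℤ} (F : Frm ip K) (k : ℤ) :
    Sim ip ip k (fun v => k • v) where
  iso := by
    intro v w
    have h1 : ∀ u x : V3, ip u (k • x) = k * ip u x := by
      intro u x
      have e : k • x = k • x + (0 : ℤ) • x := by rw [zero_smul, add_zero]
      rw [e, F.lin]
      ring
    show ip (k • v) (k • w) = k ^ 2 * ip v w
    rw [h1, F.symm, h1, F.symm]
    ring
  lin := by
    intro x y v w
    show k • (x • v + y • w) = x • (k • v) + y • (k • w)
    rw [smul_add, smul_comm k x v, smul_comm k y w]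

section psi

variable {ip : V3 → V3 → ℤ} {K : ℤ} (F : Frm ip K) {p : ℕ} [hp : Fact p.Prime] (h2 : p ≠ 2)
  (h17 : ¬ (p : ℤ) ∣ K)

theorem iso_bas {v : V3} (hv : Iso ip p v) : Iso ip p (bas ip p) := by
  have h : ∃ e, Iso ip p e := ⟨v, hv⟩
  unfold bas
  rw [dif_pos h]
  exact h.choose_spec

include F h2 h17

theorem psi_mul {v w : V3} (hv : Iso ip p v) (hw : Iso ip p w) :
    psi ip p v * psi ip p w = sig ip p v w := by
  have hb := iso_bas hv
  unfold psi
  have h1 := sig_mul F h2 h17 hb hv hw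
  rw [← h1]
  calc _ = (sig ip p (bas ip p) v * sig ip p (bas ip p) v) * sig ip p v w := by ring
    _ = _ := by rw [sig_sq F h2 h17 hb hv, one_mul]

theorem psi_sq {v : V3} (hv : Iso ip p v) : psi ip p v * psi ip p v = 1 :=
  sig_sq F h2 h17 (iso_bas hv) hv

theorem psi_pm {v : V3} (hv : Iso ip p v) : psi ip p v = 1 ∨ psi ip p v = -1 :=
  mul_self_eq_one_iff.1 (psi_sq F h2 h17 hv)

/-- the sign of a homothety -/
theorem sig_smul {k : ℤ} (hk : (k : ZMod p) ≠ 0) {v : V3}
    (hv : Iso ip p v) : sig ip p v (k • v) = quadraticChar (ZMod p) k := by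
  have hw : Iso ip p (k • v) := sim_iso F F (sim_smul F k) h2 h17 hk hv
  have h1 : ip v (k • v) = k * ip v v := by
    have e : k • v = k • v + (0 : ℤ) • v := by rw [zero_smul, add_zero]
    rw [e, F.lin]
    ring
  have h0 : ((ip v (k • v) : ℤ) : ZMod p) = 0 := by
    rw [← dvd_cast, h1]
    exact dvd_mul_of_dvd_right hv.1 _
  obtain ⟨i, hi⟩ := iso_ne hv
  obtain ⟨h3, h4⟩ := sig_par F h2 h17 hv hw h0 hi
  rw [h4]
  refine qc_eq (s := (k : ZMod p) * v i) ?_ (mul_ne_zero hi h3) hk
  simp only [Pi.smul_apply, smul_eq_mul]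
  push_cast
  ring

/-- the action of a similitude -/
theorem psi_sim {f : ℤ} {M : V3 → V3} (hM : Sim ip ip f M) (hf : (f : ZMod p) ≠ 0) {v : V3}
    (hv : Iso ip p v) : psi ip p (M v) = sig ip p v (M v) * psi ip p v := by
  have h1 := psi_mul F h2 h17 hv (sim_iso F F hM h2 h17 hf hv)
  rw [← h1]
  calc psi ip p (M v) = (psi ip p v * psi ip p v) * psi ip p (M v) := by
        rw [psi_sq F h2 h17 hv, one_mul]
    _ = _ := by ring

theorem psi_smul {k : ℤ} (hk : (k : ZMod p) ≠ 0) {v : V3} (hv : Iso ip p v) :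
    psi ip p (k • v) = jacobiSym k p * psi ip p v := by
  rw [psi_sim F h2 h17 (sim_smul F k) hk hv, sig_smul F h2 h17 hk hv, jac_eq]

end psi

end Pool.Agent.N970.Sgn
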